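import Pool.Agent.Helper63.ST.Defs

/-!
# ST-1 and ST-2a: weight spaces, independence of joint eigenvectors
-/

set_option autoImplicit false

namespace Pool.Agent.ST

open Module

/-- joint eigenvectors with different systems of eigenvalues are linearly independent -/
theorem st1_linearIndependent {k V J ι : Type*} [Field k] [AddCommGroup V] [Module k V]
    (T : ι → Module.End k V) (χ : J → ι → k) (hχ : Function.Injective χ) (v : J → V)
    (hv : ∀ j, v j ≠ 0) (hT : ∀ i j, T i (v j) = χ j i • v j) : LinearIndependent k v := by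
  classical
  rw [linearIndependent_iff']
  intro s
  induction s using Finset.induction_on with
  | empty => intro c _ j hj; simp at hj
  | insert j0 s hj0 ih =>
    intro c hc
    have h1 : ∀ j ∈ s, c j = 0 := by
      intro j1 hj1
      have hne : j0 ≠ j1 := fun h => hj0 (h ▸ hj1)
      have : χ j0 ≠ χ j1 := fun h => hne (hχ h)
      obtain ⟨i, hi⟩ := Function.ne_iff.1 this
      have h2 : ∑ j ∈ s, ((χ j i - χ j0 i) * c j) • v j = 0 := by
        have e1 := congrArg (T i) hc
        rw [map_sum, map_zero] at e1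
        have e2 : χ j0 i • ∑ j ∈ insert j0 s, c j • v j = 0 := by rw [hc, smul_zero]
        rw [Finset.smul_sum] at e2
        have e3 : ∑ j ∈ insert j0 s, ((χ j i - χ j0 i) * c j) • v j = 0 := by
          have e4 : ∑ j ∈ insert j0 s, ((χ j i - χ j0 i) * c j) • v j =
              ∑ j ∈ insert j0 s, (T i) (c j • v j) - ∑ j ∈ insert j0 s, χ j0 i • c j • v j := by
            rw [← Finset.sum_sub_distrib]
            refine Finset.sum_congr rfl (fun j _ => ?_)
            rw [map_smul, hT, smul_smul, smul_smul, ← sub_smul]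
            congr 1
            ring
          rw [e4, e1, e2, sub_zero]
        rw [Finset.sum_insert hj0, sub_self, zero_mul, zero_smul, zero_add] at e3
        exact e3
      have h3 := ih _ h2 j1 hj1
      rcases mul_eq_zero.1 h3 with h4 | h4
      · exact absurd (sub_eq_zero.1 h4).symm hi
      · exact h4
    intro j hj
    rcases Finset.mem_insert.1 hj with rfl | hj
    · rw [Finset.sum_insert hj0, Finset.sum_eq_zero (fun i hi => by rw [h1 i hi, zero_smul]),
        add_zero] at hc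
      exact (smul_eq_zero.1 hc).resolve_right (hv j)
    · exact h1 j hj

/-- a commuting family of operators has a common eigenvector in each nonzero invariant subspace -/
theorem st1_common_eigenvector {k V : Type*} [Field k] [IsAlgClosed k] [AddCommGroup V]
    [Module k V] [FiniteDimensional k V] (S : Set (Module.End k V))
    (hS : ∀ f ∈ S, ∀ g ∈ S, Commute f g) :
    ∀ (n : ℕ) (W : Submodule k V), finrank k W = n → W ≠ ⊥ → (∀ f ∈ S, ∀ w ∈ W, f w ∈ W) →
      ∃ v ∈ W, v ≠ 0 ∧ ∀ f ∈ S, ∃ c : k, f v = c • v := by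
  intro n
  induction n using Nat.strong_induction_on with
  | _ n ih =>
    intro W hn hW hinv
    by_cases hall : ∀ f ∈ S, ∃ c : k, ∀ w ∈ W, f w = c • w
    · obtain ⟨v, hvW, hv⟩ := Submodule.exists_mem_ne_zero_of_ne_bot hW
      exact ⟨v, hvW, hv, fun f hf => (hall f hf).imp fun c hc => hc v hvW⟩
    · push Not at hall
      obtain ⟨f, hf, hns⟩ := hall
      have : Nontrivial W := Submodule.nontrivial_iff_ne_bot.2 hW
      obtain ⟨μ, hμ⟩ := Module.End.exists_eigenvalue (f.restrict (hinv f hf))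
      obtain ⟨u, hu⟩ := hμ.exists_hasEigenvector
      have hu1 : f (u : V) = μ • (u : V) := congrArg Subtype.val hu.apply_eq_smul
      have hu2 : (u : V) ≠ 0 := fun h => hu.2 (Subtype.ext h)
      let W' : Submodule k V := W ⊓ LinearMap.ker (f - μ • (1 : Module.End k V))
      have hmem : ∀ w, w ∈ W' ↔ w ∈ W ∧ f w = μ • w := by
        intro w
        simp only [W', Submodule.mem_inf, LinearMap.mem_ker, LinearMap.sub_apply,
          LinearMap.smul_apply, Module.End.one_apply, sub_eq_zero]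
      have hW' : W' ≠ ⊥ := by
        intro h
        have : (u : V) ∈ W' := (hmem _).2 ⟨u.2, hu1⟩
        rw [h, Submodule.mem_bot] at this
        exact hu2 this
      have hlt : W' < W := by
        refine lt_of_le_of_ne inf_le_left ?_
        intro h
        obtain ⟨w, hw, hw2⟩ := hns μ
        rw [← h] at hw
        exact hw2 ((hmem w).1 hw).2
      have hinv' : ∀ g ∈ S, ∀ w ∈ W', g w ∈ W' := by
        intro g hg w hw
        rw [hmem] at hw ⊢
        refine ⟨hinv g hg w hw.1, ?_⟩
        have h1 : f (g w) = g (f w) := by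
          have := (hS f hf g hg).eq
          exact LinearMap.congr_fun this w
        rw [h1, hw.2, map_smul]
      obtain ⟨v, hvW, hv, hv2⟩ := ih (finrank k W') (hn ▸ Submodule.finrank_lt_finrank_of_lt hlt)
        W' rfl hW' hinv'
      exact ⟨v, ((hmem v).1 hvW).1, hv, hv2⟩

/-- ST-1: weight spaces -/
theorem weight_case {k V G : Type} [Field k] [IsAlgClosed k] [AddCommGroup V] [Module k V]
    [FiniteDimensional k V] [Nontrivial V] [Group G] (ρ : G →* Module.End k V)
    (A : Subgroup G) [A.Normal] (hA : ∀ a ∈ A, ∀ b ∈ A, Commute (ρ a) (ρ b))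
    (hs : ∃ a ∈ A, ∀ c : k, ρ a ≠ c • 1) :
    ∃ (W : Submodule k V) (H : Subgroup G), W ≠ ⊥ ∧ W ≠ ⊤ ∧ H.index ≠ 0 ∧
      H.index ≤ finrank k V ∧ ∀ h ∈ H, ∀ w ∈ W, ρ h w ∈ W := by
  have hN : A.Normal := inferInstance
  obtain ⟨w0, -, hw0, hw1⟩ := st1_common_eigenvector (ρ '' (A : Set G)) (by
    rintro _ ⟨a, ha, rfl⟩ _ ⟨b, hb, rfl⟩
    exact hA a ha b hb) (finrank k (⊤ : Submodule k V)) ⊤ rfl top_ne_bot
    (fun _ _ _ _ => Submodule.mem_top)
  have hw2 : ∀ a : G, ∃ c : k, a ∈ A → ρ a w0 = c • w0 := by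
    intro a
    by_cases ha : a ∈ A
    · obtain ⟨c, hc⟩ := hw1 (ρ a) ⟨a, ha, rfl⟩
      exact ⟨c, fun _ => hc⟩
    · exact ⟨0, fun h => absurd h ha⟩
  choose χ hχ using hw2
  let W : Submodule k V :=
    { carrier := {v | ∀ a ∈ A, ρ a v = χ a • v}
      add_mem' := by
        intro u v hu hv a ha
        rw [map_add, hu a ha, hv a ha, smul_add]
      zero_mem' := by
        intro a _
        rw [map_zero, smul_zero]
      smul_mem' := by
        intro c v hv a ha
        rw [map_smul, hv a ha, smul_comm] }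
  have hmem : ∀ v, v ∈ W ↔ ∀ a ∈ A, ρ a v = χ a • v := fun v => Iff.rfl
  let H : Subgroup G :=
    { carrier := {h | ∀ a ∈ A, χ (h⁻¹ * a * h) = χ a}
      one_mem' := by
        intro a _
        simp
      mul_mem' := by
        intro g h hg hh a ha
        have e1 : g⁻¹ * a * g ∈ A := by
          have := hN.conj_mem a ha g⁻¹
          simpa using this
        have e2 := hh _ e1
        have e3 : (g * h)⁻¹ * a * (g * h) = h⁻¹ * (g⁻¹ * a * g) * h := by group
        rw [e3, e2, hg a ha]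
      inv_mem' := by
        intro h hh a ha
        have e1 := hh _ (hN.conj_mem a ha h)
        have e2 : h⁻¹ * (h * a * h⁻¹) * h = a := by group
        rw [e2] at e1
        rw [inv_inv, ← e1] }
  have hHmem : ∀ h, h ∈ H ↔ ∀ a ∈ A, χ (h⁻¹ * a * h) = χ a := fun h => Iff.rfl
  -- moving weight vectors
  have hmove : ∀ (g : G) (v : V), v ∈ W → ∀ a ∈ A, ρ a (ρ g v) = χ (g⁻¹ * a * g) • ρ g v := by
    intro g v hv a ha
    have e1 : g⁻¹ * a * g ∈ A := by
      have := hN.conj_mem a ha g⁻¹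
      simpa using this
    have e2 := hv _ e1
    have e3 : a * g = g * (g⁻¹ * a * g) := by group
    calc ρ a (ρ g v) = ρ (a * g) v := by rw [map_mul]; rfl
      _ = ρ g (ρ (g⁻¹ * a * g) v) := by rw [e3, map_mul]; rfl
      _ = χ (g⁻¹ * a * g) • ρ g v := by rw [e2, map_smul]
  have hw0W : w0 ∈ W := fun a ha => hχ a ha
  have hli : LinearIndependent k (fun q : G ⧸ H => ρ q.out w0) := by
    refine st1_linearIndependent (fun a : A => ρ a)
      (fun q a => χ (q.out⁻¹ * a * q.out)) ?_ _ ?_ ?_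
    · intro q1 q2 h12
      rw [← Quotient.out_eq q1, ← Quotient.out_eq q2]
      refine Quotient.sound ?_
      show QuotientGroup.leftRel H _ _
      rw [QuotientGroup.leftRel_apply, hHmem]
      intro a ha
      have e1 := congrFun h12 ⟨q1.out * a * q1.out⁻¹, hN.conj_mem a ha _⟩
      simp only at e1
      have e2 : q1.out⁻¹ * (q1.out * a * q1.out⁻¹) * q1.out = a := by group
      have e3 : (q1.out⁻¹ * q2.out)⁻¹ * a * (q1.out⁻¹ * q2.out) =
        q2.out⁻¹ * (q1.out * a * q1.out⁻¹) * q2.out := by group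
      rw [e3, ← e1, e2]
    · intro q h
      apply hw0
      have e1 : ρ (q.out⁻¹) (ρ q.out w0) = w0 := by
        have : ρ (q.out⁻¹ * q.out) w0 = w0 := by rw [inv_mul_cancel, map_one]; rfl
        rw [map_mul] at this
        exact this
      rw [← e1, h, map_zero]
    · intro a q
      exact hmove q.out w0 hw0W a a.2
  have hfin : Finite (G ⧸ H) := hli.finite
  refine ⟨W, H, ?_, ?_, ?_, ?_, ?_⟩
  · intro h
    rw [h, Submodule.mem_bot] at hw0W
    exact hw0 hw0W
  · intro h
    obtain ⟨a, ha, hns⟩ := hs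
    apply hns (χ a)
    ext v
    have : v ∈ W := by rw [h]; exact Submodule.mem_top
    rw [this a ha]
    rfl
  · rw [Subgroup.index]
    exact Nat.card_pos.ne'
  · have := Fintype.ofFinite (G ⧸ H)
    rw [Subgroup.index, Nat.card_eq_fintype_card]
    exact hli.fintype_card_le_finrank
  · intro h hh w hw a ha
    rw [hmove h w hw a ha, hh a ha]

/-- ST-2a: independence of eigenvectors of the operators `X ↦ ρ b X ρ b⁻¹` -/
theorem relIndex_le {k V G : Type} [Field k] [AddCommGroup V] [Module k V]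
    [FiniteDimensional k V] [Nontrivial V] [Group G] (ρ : G →* Module.End k V)
    (hs : ∀ A : Subgroup G, A.Normal → (∀ a ∈ A, ∀ b ∈ A, Commute (ρ a) (ρ b)) →
      ∀ a ∈ A, ∃ c : k, ρ a = c • 1)
    (Z B : Subgroup G) (hZ : ∀ g, g ∈ Z ↔ ∃ c : k, ρ g = c • 1) (hB : B.Normal) (hZB : Z ≤ B)
    (hc : ∀ a ∈ B, ∀ b ∈ B, a * b * a⁻¹ * b⁻¹ ∈ Z) :
    Z.relIndex B ≠ 0 ∧ Z.relIndex B ≤ finrank k V ^ 2 := by
  -- the centralizer part
  let B0 : Subgroup G :=
    { carrier := {b | b ∈ B ∧ ∀ b' ∈ B, Commute (ρ b) (ρ b')}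
      one_mem' := ⟨B.one_mem, fun b' _ => by rw [map_one]; exact Commute.one_left _⟩
      mul_mem' := by
        rintro a b ⟨ha, ha'⟩ ⟨hb, hb'⟩
        refine ⟨B.mul_mem ha hb, fun b' hb1 => ?_⟩
        rw [map_mul]
        exact (ha' b' hb1).mul_left (hb' b' hb1)
      inv_mem' := by
        rintro a ⟨ha, ha'⟩
        refine ⟨B.inv_mem ha, fun b' hb1 => ?_⟩
        have h1 := ha' b' hb1
        have e1 : ρ a⁻¹ * ρ a = 1 := by rw [← map_mul, inv_mul_cancel, map_one]
        have e2 : ρ a * ρ a⁻¹ = 1 := by rw [← map_mul, mul_inv_cancel, map_one]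
        calc ρ a⁻¹ * ρ b' = ρ a⁻¹ * ρ b' * (ρ a * ρ a⁻¹) := by rw [e2, mul_one]
          _ = ρ a⁻¹ * (ρ b' * ρ a) * ρ a⁻¹ := by simp only [mul_assoc]
          _ = ρ a⁻¹ * (ρ a * ρ b') * ρ a⁻¹ := by rw [h1.eq]
          _ = (ρ a⁻¹ * ρ a) * ρ b' * ρ a⁻¹ := by simp only [mul_assoc]
          _ = ρ b' * ρ a⁻¹ := by rw [e1, one_mul] }
  have hB0N : B0.Normal := by
    refine ⟨?_⟩
    rintro a ⟨ha, ha'⟩ g
    refine ⟨hB.conj_mem a ha g, fun b' hb1 => ?_⟩
    have h1 : g⁻¹ * b' * g ∈ B := by
      have := hB.conj_mem b' hb1 g⁻¹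
      simpa using this
    have h2 := (ha' _ h1).eq
    have e1 : ρ (g * a * g⁻¹) * ρ b' = ρ g * (ρ a * ρ (g⁻¹ * b' * g)) * ρ g⁻¹ := by
      simp only [← map_mul]
      congr 1
      group
    have e2 : ρ b' * ρ (g * a * g⁻¹) = ρ g * (ρ (g⁻¹ * b' * g) * ρ a) * ρ g⁻¹ := by
      simp only [← map_mul]
      congr 1
      group
    show _ * _ = _ * _
    rw [e1, e2, h2]
  have hB0Z : B0 ≤ Z := by
    intro a ha
    rw [hZ]
    exact hs B0 hB0N (fun x hx y hy => hx.2 y hy.1) a ha
  have hlam : ∀ z : G, ∃ c : k, z ∈ Z → ρ z = c • 1 := by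
    intro z
    by_cases hz : z ∈ Z
    · obtain ⟨c, hc⟩ := (hZ z).1 hz
      exact ⟨c, fun _ => hc⟩
    · exact ⟨0, fun h => absurd h hz⟩
  choose lam hlam using hlam
  have hne : ∀ g : G, ρ g ≠ 0 := by
    intro g h
    have e1 : ρ g * ρ g⁻¹ = 1 := by rw [← map_mul, mul_inv_cancel, map_one]
    rw [h, zero_mul] at e1
    exact zero_ne_one e1
  have hconj : ∀ b ∈ B, ∀ x ∈ B, ρ b * ρ x * ρ b⁻¹ = lam (b * x * b⁻¹ * x⁻¹) • ρ x := by
    intro b hb x hx
    have e1 := hlam _ (hc b hb x hx)
    have e2 : ρ b * ρ x * ρ b⁻¹ = ρ (b * x * b⁻¹ * x⁻¹) * ρ x := by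
      simp only [← map_mul]
      congr 1
      group
    rw [e2, e1, smul_mul_assoc, one_mul]
  let K : Subgroup B := Z.subgroupOf B
  have hli : LinearIndependent k (fun q : B ⧸ K => ρ ((q.out : B) : G)) := by
    refine st1_linearIndependent
      (fun b : B => (LinearMap.mulLeft k (ρ b)).comp (LinearMap.mulRight k (ρ (b : G)⁻¹)))
      (fun q b => lam ((b : G) * (q.out : B) * (b : G)⁻¹ * ((q.out : B) : G)⁻¹)) ?_ _ ?_ ?_
    · intro q1 q2 h12
      rw [← Quotient.out_eq q1, ← Quotient.out_eq q2]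
      refine Quotient.sound ?_
      show QuotientGroup.leftRel K _ _
      rw [QuotientGroup.leftRel_apply]
      show _ ∈ Z.subgroupOf B
      rw [Subgroup.mem_subgroupOf]
      apply hB0Z
      refine ⟨SetLike.coe_mem _, fun b hb => ?_⟩
      set x : G := ((q1.out : B) : G) with hx
      set y : G := ((q2.out : B) : G) with hy
      have hxB : x ∈ B := SetLike.coe_mem _
      have hyB : y ∈ B := SetLike.coe_mem _
      have e0 := congrFun h12 ⟨b, hb⟩
      simp only at e0
      rw [← hx, ← hy] at e0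
      have e1 := hconj b hb x hxB
      have e2 := hconj b hb y hyB
      rw [← e0] at e2
      set c := lam (b * x * b⁻¹ * x⁻¹) with hcdef
      have hc0 : c ≠ 0 := by
        intro h0
        rw [h0, zero_smul, ← map_mul, ← map_mul] at e1
        exact hne _ e1
      -- `ρ (b x b⁻¹) = c ρ x`, `ρ (b y b⁻¹) = c ρ y`
      have e3 : ρ b * ρ x = c • (ρ x * ρ b) := by
        have e4 : ρ b * ρ x = ρ b * ρ x * ρ b⁻¹ * ρ b := by
          simp only [← map_mul]
          congr 1
          group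
        rw [e4, e1, smul_mul_assoc]
      have e3' : ρ b * ρ y = c • (ρ y * ρ b) := by
        have e4 : ρ b * ρ y = ρ b * ρ y * ρ b⁻¹ * ρ b := by
          simp only [← map_mul]
          congr 1
          group
        rw [e4, e2, smul_mul_assoc]
      have hxy : ((q1.out⁻¹ * q2.out : B) : G) = x⁻¹ * y := rfl
      rw [hxy]
      have e5 : ρ x * (ρ b * ρ (x⁻¹ * y)) = ρ x * (ρ (x⁻¹ * y) * ρ b) := by
        have e6 : ρ x * (ρ (x⁻¹ * y) * ρ b) = ρ y * ρ b := by
          simp only [← map_mul]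
          congr 1
          group
        have e7 : c • (ρ x * (ρ b * ρ (x⁻¹ * y))) = ρ b * ρ y := by
          rw [← mul_assoc, ← smul_mul_assoc, ← e3]
          simp only [← map_mul]
          congr 1
          group
        have e8 : c • (ρ x * (ρ b * ρ (x⁻¹ * y))) = c • (ρ y * ρ b) := by rw [e7, e3']
        rw [e6]
        exact smul_right_injective _ hc0 e8
      have e9 : ρ x⁻¹ * (ρ x * (ρ b * ρ (x⁻¹ * y))) = ρ x⁻¹ * (ρ x * (ρ (x⁻¹ * y) * ρ b)) := by
        rw [e5]
      have e10 : ρ x⁻¹ * ρ x = 1 := by rw [← map_mul, inv_mul_cancel, map_one]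
      rw [← mul_assoc, ← mul_assoc (ρ x⁻¹) (ρ x), e10, one_mul, one_mul] at e9
      exact e9.symm
    · intro q
      exact hne _
    · intro b q
      have := hconj b b.2 (q.out : B) (SetLike.coe_mem _)
      rw [← this]
      simp only [LinearMap.comp_apply, LinearMap.mulLeft_apply, LinearMap.mulRight_apply, mul_assoc]
  have hfin : Finite (B ⧸ K) := hli.finite
  have e1 : Z.relIndex B = Nat.card (B ⧸ K) := rfl
  rw [e1]
  refine ⟨Nat.card_pos.ne', ?_⟩
  have := Fintype.ofFinite (B ⧸ K)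
  rw [Nat.card_eq_fintype_card, pow_two, ← Module.finrank_linearMap k k V V]
  exact hli.fintype_card_le_finrank

end Pool.Agent.ST
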